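import Pool.Agent.Run7.h621.MP.Image

/-!
MP_c2a5fc_ag, Q1: abundance, with `κ = ν = dim`, for all manifolds that have a correspondence of
bounded degree with a subvariety of a generic (or nearly generic) complete intersection in a closed
subset of a product of projective spaces, such as the models of the images of such subvarieties under
rational maps of bounded degree and of their quotients by groups of bounded order.

Let `K` be an algebraically closed field of characteristic `0`, such as the complex numbers, and let
`k` be a field contained in `K`, such as the rational numbers, with algebraic closure `k'` in `K`.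
Let `V` be a closed subset of a product of projective spaces of dimensions `n_i`, defined over `k'`,
of dimension at most `m`, whose projection to the factor `i` has dimension at most `m_i`. For `a` in
a finite set `A`, let `F_a` be a member of a linear system over `k'` of forms of degrees `d_{a,i}` in
the coordinates `x_{i,0}, x_{i,1}, ...` of the factor `i`, spanned by the forms `P_{a,j}`, with the
coefficients `t_{a,j}`, and let `N` be the number of the ratios of the `t_{a,j}` to one of them, for
all `a` together: the dimension of the space of parameters. The ratios are supposed to generate a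
field of transcendence degree at least `N - s` over `k`. For `s = 0`, this says that they are
algebraically independent: the `F_a` are generic. In general it says that the point of the space of
parameters is not in any closed subset over `k` of codimension more than `s`. Let `X` be the complete
intersection `F_a = 0` in `V`. It can be singular.

Let `Z` be a set of choices `c` of an index `c_i` for each factor such that each of the linear
systems contains all products of the monomials `x_{i,c_i} ^ (d_{a,i} - e_i) x_{i,j_i} ^ e_i` over the
`i`. If the linear systems contain all forms of the degrees `d_{a,i}`, then `Z` can be the set of all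
choices. Let `E` be the closed set of the points such that for each `c` in `Z` some `x_{i,c_i}` is
`0`. It is empty if `Z` is the set of all choices.

Let `W` be a variety of dimension `w > 0`, let `Y'` be a variety with a dominant rational map to `W`
of degree at most `r`, and with a generically finite rational map, of any degree, to `X` whose image
is not contained in `E`. So its closure `Y` is a subvariety of `X` of dimension `w`, and `W` and `Y`
are in a correspondence with degree at most `r` over `W`.

Theorem. If `m + m_i + s + 2 r ≤ ∑_a (d_{a,i} + 1) + w` for all `i` such that the projection of `Y` to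
the factor `i` is not constant, then `W` is of general type. So for all projective manifolds that are
birational to `W`, the Kodaira dimension, and then also the numerical dimension if the canonical
bundle is nef, is the dimension.

For `r = 1` these `W` are the varieties with a generically finite rational map, of any degree, to
`X`. For `r > 1`, among them are: the images of the subvarieties `Y` of `X` under rational maps of
degree at most `r`, such as the quotients of `Y` by finite groups of order at most `r` (with
arbitrary fixed points, so that the canonical bundle of the quotient can be less positive than the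
one of `Y`), and all varieties with a generically finite rational map to such an image. For example,
if `X` is a generic hypersurface of degree `d` in projective `n`-space, the condition is
`2 n + 2 r ≤ d + 1 + w`; for all subvarieties `Y` of positive dimension it is true for
`d ≥ 2 n + 2 r - 2`.

`L` is the function field of `W`, `M` the function field of `Y'`, and `x` is the image of the generic
point of `Y'` in `X`, with multihomogeneous coordinates in `M`.
-/

set_option autoImplicit false

namespace Pool.Agent.Results.MP_c2a5fc_ag.CorrespondencesOfSubvarieties

open MvPolynomial Pool.Agent.W602.GT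

/-- The coordinates of a product of projective spaces of dimensions `n i`. -/
abbrev Coords {ι : Type} (n : ι → ℕ) : Type := (i : ι) × Fin (n i + 1)

/-- The point with the coordinates `x` over an extension `Ω` of `k` is a point of the closed subset
of the product of projective spaces given by the equations in `V`. -/
def OnSet {k : Type} [Field k] {ι : Type} {n : ι → ℕ} (V : Set (MvPolynomial (Coords n) k))
    {Ω : Type} [Field Ω] [Algebra k Ω] (x : Coords n → Ω) : Prop :=
  (∀ i, ∃ j, x ⟨i, j⟩ ≠ 0) ∧ ∀ f ∈ V, aeval x f = 0

/-- The field generated over `k` by the point with the coordinates `x`: by all ratios of coordinates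
of the same factor. -/
def pointField (k : Type) [Field k] {ι : Type} {n : ι → ℕ} {Ω : Type} [Field Ω] [Algebra k Ω]
    (x : Coords n → Ω) : IntermediateField k Ω :=
  IntermediateField.adjoin k {z | ∃ (i : ι) (j l : Fin (n i + 1)), x ⟨i, l⟩ ≠ 0 ∧
    z = x ⟨i, j⟩ / x ⟨i, l⟩}

/-- The forms of degrees `d i` in the coordinates of the factor `i`. -/
def IsForm {R : Type} [CommRing R] {ι : Type} [DecidableEq ι] {n : ι → ℕ}
    (F : MvPolynomial (Coords n) R) (d : ι → ℕ) : Prop :=
  ∀ i, F.IsWeightedHomogeneous (fun p : Coords n => if p.1 = i then 1 else 0) (d i)

theorem result {k K : Type} [Field k] [Field K] [IsAlgClosed K] [CharZero K] [Algebra k K]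
    {ι : Type} [Fintype ι] [DecidableEq ι] {n : ι → ℕ} {m s : ℕ} {mi : ι → ℕ}
    -- a closed subset of a product of projective spaces, of dimension at most `m`, whose
    -- projection to the factor `i` has dimension at most `mi i`
    (V : Set (MvPolynomial (Coords n) (algebraicClosure k K))) (hVh : ∀ f ∈ V, ∃ e, IsForm f e)
    (hV : ∀ (Ω : Type) [Field Ω] [Algebra (algebraicClosure k K) Ω] (x : Coords n → Ω),
      OnSet V x → Algebra.trdeg (algebraicClosure k K) (pointField (algebraicClosure k K) x) ≤ m)
    (hVi : ∀ (i : ι) (Ω : Type) [Field Ω] [Algebra (algebraicClosure k K) Ω] (x : Coords n → Ω),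
      OnSet V x → Algebra.trdeg (algebraicClosure k K)
        (coords (algebraicClosure k K) fun j => x ⟨i, j⟩) ≤ mi i)
    -- linear systems of forms of degrees `d a i`
    {A : Type} [Fintype A] (d : A → ι → ℕ) {J : A → Type} [∀ a, Fintype (J a)]
    (P : ∀ a, J a → MvPolynomial (Coords n) (algebraicClosure k K))
    (hP : ∀ a j, IsForm (P a j) (d a))
    -- they contain the products of the monomials in `x_{i, c i}` and another coordinate of the
    -- factor `i`, for `c ∈ Z`
    (Z : Set (∀ i, Fin (n i + 1))) (hZ : ∀ c ∈ Z, ∀ (a : A) (l : ∀ i, Fin (n i + 1)) (e : ι → ℕ),
      (∀ i, e i ≤ d a i) → ∃ j, P a j = ∏ i, (X ⟨i, c i⟩ ^ (d a i - e i) * X ⟨i, l i⟩ ^ e i))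
    -- the coefficients; their ratios generate a field of transcendence degree at least their
    -- number minus `s`
    (t : ∀ a, J a → K) (j0 : ∀ a, J a) (h0 : ∀ a, t a (j0 a) ≠ 0)
    (hgen : (Nat.card ((a : A) × {j : J a // j ≠ j0 a}) : Cardinal) ≤
      Algebra.trdeg k (IntermediateField.adjoin k (Set.range
        fun p : (a : A) × {j : J a // j ≠ j0 a} => t p.1 p.2.1 / t p.1 (j0 p.1))) + s)
    -- the forms
    (F : A → MvPolynomial (Coords n) K)
    (hF : ∀ a, F a =
      ∑ j, MvPolynomial.C (t a j) * map (algebraMap (algebraicClosure k K) K) (P a j))
    -- the function fields of the varieties `W` and `Y'`, with a rational map from `Y'` to `W` of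
    -- degree at most `r`
    (L M : Type) [Field L] [Field M] [Algebra K L] [Algebra K M] [Algebra L M]
    [IsScalarTower K L M] [FiniteDimensional L M] [Algebra.EssFiniteType K M]
    (w r : ℕ) (hw : 0 < w) (htr : Algebra.trdeg K M = w) (hr : Module.finrank L M ≤ r)
    -- the generically finite rational map from `Y'` to the complete intersection
    (x : Coords n → M) (hx0 : ∃ c ∈ Z, ∀ i, x ⟨i, c i⟩ ≠ 0)
    (hxM : Algebra.IsAlgebraic (pointField K x) M)
    (hxV : ∀ f ∈ V, aeval x (map (algebraMap (algebraicClosure k K) K) f) = 0)
    (hxF : ∀ a, aeval x (F a) = 0)
    -- the condition for the factors where it is not constant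
    (hnum : ∀ i, (∃ (z : Fin (n i + 1) → K) (r : M), ∀ j, x ⟨i, j⟩ = r * algebraMap K M (z j)) ∨
      m + mi i + s + 2 * r ≤ ∑ a, d a i + Fintype.card A + w) :
    -- `W` is of general type
    GeneralType K L w := by
  classical
  have hac : IsAlgClosed (algebraicClosure k K) := (algebraicClosure.isAlgClosure k K).isAlgClosed
  obtain ⟨B, hB, hBs⟩ := Pool.Agent.Run7.h621.NG.exists_indep _ hgen
  obtain ⟨c, hc, hxc⟩ := hx0
  exact Pool.Agent.Run7.h621.MP.image_sub hP hVh
    (fun Ω _ _ x hx hxV => hV Ω x ⟨hx, hxV⟩) (fun i Ω _ _ x hx hxV => hVi i Ω x ⟨hx, hxV⟩)
    (c0 := c) (fun a l e he => by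
      obtain ⟨j, hj⟩ := hZ c hc a l e he
      refine ⟨j, ?_⟩
      rw [hj, Pool.Agent.Run7.h621.MP.sM]
      rw [show (monomial (∑ i, (Finsupp.single (⟨i, c i⟩ : Coords n) (d a i - e i) +
        Finsupp.single ⟨i, l i⟩ (e i))) (1 : algebraicClosure k K)) =
        ∏ i, monomial (Finsupp.single (⟨i, c i⟩ : Coords n) (d a i - e i) +
        Finsupp.single ⟨i, l i⟩ (e i)) (1 : algebraicClosure k K) from
          monomial_sum_one _ _]
      refine Finset.prod_congr rfl fun i _ => ?_
      rw [X_pow_eq_monomial, X_pow_eq_monomial, monomial_mul, one_mul])
    hw t h0 hBs hB.algebraicClosure hF htr hxc hr hnum hxM hxV hxF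

end Pool.Agent.Results.MP_c2a5fc_ag.CorrespondencesOfSubvarieties
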