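import Pool.Agent.Run7.h72.Main

/-!
# Abundance for varieties dominated by a fibration over a base with positive canonical bundle

Let `V ⇢ X` be a dominant rational map of complex varieties, `X` of dimension `a`, such that
`ν (V) ≤ a` and `N (K_V - R) - ∑ M i H i` is effective on all models, where `R = ∑ (q - 1) Q` is the
ramification divisor of `V ⇢ X` (`q` is the multiplicity of the divisor `Q` over a divisor of `X`) and
the `H i` are linear systems of functions on `X` which generate the function field of `X`. For
instance `V = X × Y` where `N K_X - ∑ M i H i` is effective and `κ (Y) = ν (Y) = 0`.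

Abundance holds for all varieties `W` which are dominated by `V` through a generically finite rational
map, if the degree of the field extension `ℂ(W) ℂ(X) / ℂ(W)` is small compared with the `M i / N`.
-/

set_option autoImplicit false

open FF Module Pool.Agent.W602.GT Pool.Agent.W603.LV Run7.h72
open Pool.Agent.W619.TW (NumNeg NumLe)
open Pool.Agent.W619.Y (BdUp)

namespace Pool.Agent.Results.MP_c2a5fc_ag.DominatedByFibrations

/-- The field of the functions on `V` which come from `X`: it is generated by the families `x i`. -/
noncomputable def FieldX {L : Type} [Field L] [Algebra ℂ L] {c : ℕ} {m : Fin c → ℕ}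
    (x : ∀ i, Fin (m i + 1) → L) : IntermediateField ℂ L :=
  IntermediateField.adjoin ℂ {z : L | ∃ i b, z = x i b}

/-- The `N`-canonical form `ω` is a section of `N (K_V + D - R)`, where `D` is the boundary given by
the set `B` of places and `R` is the ramification divisor over `X`: it is regular outside `D` and
logarithmic along `D`, and, on logarithmic vector fields, it vanishes to order at least `q N` along
each divisor `Q` outside `D` which is of multiplicity `q` over a divisor `P` of `X` (for `q = 1` this
just says that `ω` is regular along `Q`). -/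
def SecR {L : Type} [Field L] [Algebra ℂ L] (n N : ℕ) (B : Place ℂ L → Prop)
    (E : IntermediateField ℂ L) (ω : (Fin n → Derivation ℂ L L) → L) : Prop :=
  LogSec ℂ L n N B ω ∧
    ∀ (Q : Place ℂ L) (P : Place ℂ E) (q : ℕ), Divisorial n Q → ¬ B Q → Over Q P q →
      ∀ D : Fin n → Derivation ℂ L L, (∀ i, DerLog Q (D i)) → Ge Q (q * N) (ω D)

/-- Let `W` be a variety of dimension `n` with function field `K` and boundary `B` (for projective
manifolds `B` is empty), and let `V` be a variety with function field `L`, finite over `K`, with the
boundary `BdUp B` over `B`. Let `x i` (`i < c`) be families of rational functions on `V`, each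
containing `1`, and let `X` be the variety whose function field is generated by them; let `a` of them
be algebraically independent. Suppose that `ν (K_V + D) ≤ a` and that there are `N > 0`, `M i` and a
nonzero `N`-canonical form `ω` on `V` such that all products of `ω` with `∏ (x i (f i)) ^ M i` are
sections of `N (K_V + D - R)`. Let `K_i = K (x 0, …, x (i - 1))` (this is `Lv K x i`) and suppose that
`M i > 2 N ([K_{i + 1} : K_i] - 1)`. Then either `K_W + B` is not pseudo-effective
(`ν (K_W + B) = -∞`: for each `A` the divisors `m (K_W + B) + A` have no sections for large `m`) or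
`κ (K_W + B) = ν (K_W + B) = a`. -/
theorem result {K L : Type} [Field K] [Field L] [Algebra ℂ K] [Algebra ℂ L] [Algebra K L]
    [IsScalarTower ℂ K L] [FiniteDimensional K L] [Algebra.EssFiniteType ℂ K] {n : ℕ}
    (hn : Algebra.trdeg ℂ K = n) (B : Place ℂ K → Prop)
    {c : ℕ} {m : Fin c → ℕ} (x : ∀ i, Fin (m i + 1) → L) (hx : ∀ i, x i 0 = 1)
    {a : ℕ} (t : Fin a → Σ i, Fin (m i + 1))
    (ht : AlgebraicIndependent ℂ fun s => x (t s).1 (t s).2)
    (hnu : NumLe ℂ L n (BdUp B) a) {N : ℕ} (hN : 0 < N) (M : Fin c → ℕ)
    {ω : (Fin n → Derivation ℂ L L) → L} (hω0 : ∃ D, ω D ≠ 0)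
    (hω : ∀ f : ∀ i, Fin (m i + 1),
      SecR n N (BdUp B) (FieldX x) fun D => (∏ i, x i (f i) ^ M i) * ω D)
    (hM : ∀ i : Fin c, 2 * N * (finrank K (Lv K x (i + 1)) - finrank K (Lv K x i)) <
      M i * finrank K (Lv K x i)) :
    NumNeg ℂ K n B ∨ (KodGe ℂ K n B a ∧ NumLe ℂ K n B a) := by
  refine abundance hn x hx hN M (fun i => ?_) hω0 (fun f => (hω f).1)
    (fun f Q P q hQ hBQ hQP D hD => (hω f).2 Q P q hQ hBQ hQP D hD) t ht hnu
  have h1 := hM i
  have e1 : 2 * N * (finrank K (Lv K x (i + 1)) - finrank K (Lv K x i)) =
      2 * (finrank K (Lv K x (i + 1)) - finrank K (Lv K x i)) * N := by ring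
  rwa [e1] at h1

end Pool.Agent.Results.MP_c2a5fc_ag.DominatedByFibrations
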