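import Pool.Agent.Run7.h528.NR.Main
import Pool.Agent.Run7.h528.NN.Log
import Pool.Agent.N110.RK.Stat
import Pool.Agent.N110.Can
import Pool.Agent.N110.IM.Main
import Pool.Agent.N110.NV.Fin
import Pool.Agent.R887.NefP
import Pool.Agent.R887.Exc

/-!
Minimal varieties dominated by a variety with a nilpotent group of birational self-maps of large
growth rank: the numerical dimension, abundance, and torsion canonical classes.
-/

set_option autoImplicit false

open FF Pool.Agent.W602.GT Pool.Agent.Y172 Pool.Agent.R887 Pool.Agent.N110 Run7.h528.NR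
open Run7.h528.NN

/-- Let `M` be a projective manifold of dimension `n ≥ 1` with nef canonical class (more generally a
normal projective variety with canonical singularities and nef canonical class), with generic point
`y`. Suppose that `M` is dominated by a normal projective variety `X` of dimension `n`: there is a
dominant rational map `X ⇢ M`, generically finite, given by the homomorphism `π` of the function
fields. Let `f_1, ..., f_r` be birational self-maps of `X` which generate a nilpotent group `G` (not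
necessarily abelian); they have nothing to do with the map `X ⇢ M`. Suppose that `X` has canonical
singularities (then nothing more is assumed of `G`), or that the elements of `G` preserve
`K_X + Δ` for an effective `ℚ`-divisor `Δ` on `X` (over the prime divisors of `X` the divisor
`g^* (K_X + Δ)` is at most `K_X + Δ`). Let `s ≥ 1` be at most the growth rank: for `v` in `ℤ ^ r`
let `D(v)` be the degree `g_v^* H · H ^ (n - 1)` of the map `g_v` of `X` with
`g_v^* = f_1^* ^ (v_1) ... f_r^* ^ (v_r)` (a product in this order); `D` grows subexponentially only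
along linear subspaces of `ℝ ^ r` of codimension at least `s`. For instance `s = r ≥ 1` if `D(v)` is
at least `c exp (δ |v|)` for some `c, δ > 0`.

Then `s ≤ n - 1` and `ν (M) ≤ n - 1 - s`, `κ (M) ≤ n - 1 - s`. If `κ (M) ≥ n - 1 - s` then
`κ (M) = ν (M)`. If `s = n - 1`, then the canonical class of `M` is numerically trivial, whatever the
irregularity of `M` is (so it is torsion by the theorem of Beauville, Bogomolov and Kawamata, which is
not formalised here; the hypothesis `NeronSeveri y`, used only for this, is the theorem of Néron and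
Severi that the group of the divisors modulo numerical equivalence is finitely generated). If
`s = n - 1` and `κ (M) ≥ 0` or the irregularity of `M` is zero, then it is proved here that
`κ (M) = ν (M) = 0` and the canonical class is torsion: `m K_M` has a section `ω ≠ 0` without zeros
for some `m ≥ 1`.

For commuting maps a part of this is contained in the starting file
`Results/MP_a58813_ag/DominatedAbelianRank.lean`. -/
theorem Pool.Agent.Results.MP_c2a5fc_ag.NilpotentDominated.result
    {K K' : Type} [Field K] [Algebra ℂ K] [Field K'] [Algebra ℂ K'] {N N' n : ℕ}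
    {y : Fin (N + 1) → K} {y' : Fin (N' + 1) → K'} (hy : NormalModel y) (hy' : NormalModel y')
    (hn : Algebra.trdeg ℂ K = n) (hn' : Algebra.trdeg ℂ K' = n) (hn0 : 0 < n)
    (hcan : Canonical y n) (hnef : LogNef y n 0) (π : K →ₐ[ℂ] K')
    {Δ' : Place ℂ K' → ℚ} (hΔ' : Effective y' Δ') {r s : ℕ} (hs : 0 < s)
    (f : Fin r → (K' ≃ₐ[ℂ] K')) (hnil : Group.IsNilpotent (Subgroup.closure (Set.range f)))
    (hP : (∀ g ∈ Subgroup.closure (Set.range f), PullLe g y' n Δ') ∨ (Δ' = 0 ∧ Canonical y' n))
    (hrank : GrowthRankGe (nprod f) y' n s ∨ (s = r ∧ ExpGrowth (nprod f) y' n)) :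
    s < n ∧ NumDimLt y n 0 (n - s) ∧ ¬ KappaGe y n 0 (n - s) ∧
      (KappaGe y n 0 (n - s - 1) → Abundant y n 0) ∧
      (s + 1 = n → NeronSeveri y → NumTrivial y n 0) ∧
      (s + 1 = n → KappaGe y n 0 0 ∨ IrregularityZero y →
        kodairaDim y n 0 = ((0 : ℕ) : WithBot ℕ) ∧
        (∀ A, Effective y A → Integral y A → numericalDim y n 0 A = ((0 : ℕ) : EReal)) ∧
        ∃ m : ℕ, 1 ≤ m ∧ ∃ ω : (Fin n → Derivation ℂ K K) → K, ω ≠ 0 ∧ IsSection y n m 0 ω ∧
          ∀ P, IsPrimeDivisor y P → OrdEq P ω 0) := by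
  have hz : {P : Place ℂ K | IsPrimeDivisor y P ∧ (0 : Place ℂ K → ℚ) P ≠ 0}.Finite :=
    Set.finite_empty.subset (by rintro P ⟨-, h⟩; exact h rfl)
  have hP' : ∀ g ∈ Subgroup.closure (Set.range f), PullLe g y' n Δ' := by
    rcases hP with h | ⟨rfl, hcan'⟩
    · exact h
    · exact fun g _ => pullLe_canonical hy' hn' hcan' g
  have hrank' : GrowthRankGe (nprod f) y' n s := by
    rcases hrank with h | ⟨rfl, h⟩
    · exact h
    · exact RK.growthRank_of_exp h
  obtain ⟨h1, h2'⟩ := nil_main hy' hn' hn0 hΔ'.2 hs f hnil hP' hrank'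
  have h2 := IM.numDimLt_can hy hy' hn hn' hcan hΔ'.1 π (Nat.sub_le _ _) h2'
  refine ⟨h1, h2, ?_, fun h => ⟨n - s - 1, h, ?_⟩, fun h3 hN => ?_, ?_⟩
  · rintro ⟨m, hm, ω, E, hω, h0, hind⟩
    exact kappa_lt hy hn (Nat.sub_le _ _) h2 hm hω h0 hind
  · rwa [show n - s - 1 + 1 = n - s by omega]
  · rw [show n - s = 1 by omega] at h2
    exact nef_numTrivial hy hn hn0 hN hz hnef h2
  · intro h3 hq
    rw [show n - s = 1 by omega] at h2
    have key : ∃ m : ℕ, 1 ≤ m ∧ ∃ ω : (Fin n → Derivation ℂ K K) → K, ω ≠ 0 ∧
        IsSection y n m (m • (0 : Place ℂ K → ℚ)) ω := by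
      rcases hq with ⟨m, hm, ω, E, hω, h0, -⟩ | hq
      · exact ⟨m, hm, ω 0, fun h4 => h0 (by rw [h4]; rfl), hω 0⟩
      · obtain ⟨m, hm, ω, hω0, hω⟩ := NV.nonvanishing hy hn hn0 hz
          (NV.psef_of_nef hy hn hn0 hnef) h2 hq
        exact ⟨m, hm, ω, hω0, hω⟩
    obtain ⟨m, hm, ω, hω0, hω⟩ := key
    have hsec : IsSection y n m 0 ω := by rwa [smul_zero] at hω
    obtain ⟨h5, h6⟩ := abundance_zero hy hn hn0 ⟨fun _ _ => le_rfl, hz⟩ h2 hm hω hω0
    refine ⟨h5, h6, m, hm, ω, hω0, hsec, fun P hP => ?_⟩
    have h7 := nef_trivialP hy hn hn0 h2 hnef hm hω hω0 P hP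
    simpa using h7
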