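import Pool.Agent.Run7.h913.QG.MainQ
import Pool.Agent.N110.RK.Stat
import Pool.Agent.N110.Can
import Pool.Agent.R887.Exc

/-!
Commuting birational self-maps of zero entropy which preserve `K_X + Δ`, whose degrees grow faster
than the fourth power of the word length: the numerical dimension is at most `n - 3`, and abundance.
-/

set_option autoImplicit false

open FF Pool.Agent.W602.GT Pool.Agent.Y172 Pool.Agent.R887 Pool.Agent.N110
open scoped ENNReal

/-- Let `X` be a normal projective variety of dimension `n ≥ 1`, with generic point `y` (a projective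
manifold, for instance), and `Δ ≥ 0` a `ℚ`-divisor on `X` (klt, log canonical or not). Let
`f_1, ..., f_r` be commuting birational self-maps of `X`, given by the automorphisms `f i` of the
function field, and `G` the group which they generate. Suppose that the elements of `G` have zero
entropy: their first dynamical degrees are `1`. Suppose that the elements of `G` preserve `K_X + Δ`
(over the prime divisors of `X` the divisor `g^* (K_X + Δ)` is at most `K_X + Δ`), or that `Δ = 0` and
`X` has canonical singularities (no condition on the maps then). Suppose that the degrees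
`g^* H · H ^ (n - 1)` grow faster than the fourth power of the word length: for every `C` there is a
product of `l ≥ 1` maps `f_i` and inverses of maps `f_i` with degree greater than `C l ^ 4`. For one
map `f` this means that the numbers `(f ^ l)^* H · H ^ (n - 1) / l ^ 4`, for `l` in `ℤ`, are unbounded.
Then `n ≥ 4`, the numerical dimension of `K_X + Δ` is at most `n - 3`, and so is the Kodaira
dimension. If the Kodaira dimension is at least `n - 3` then the Kodaira dimension and the numerical
dimension of `K_X + Δ` are equal. -/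
theorem Pool.Agent.Results.MP_c2a5fc_ag.QuarticDegreeGrowth.result
    {K : Type} [Field K] [Algebra ℂ K] {N n : ℕ} {y : Fin (N + 1) → K} (hy : NormalModel y)
    (hn : Algebra.trdeg ℂ K = n) (hn0 : 0 < n) {Δ : Place ℂ K → ℚ} (hΔ : Effective y Δ)
    {r : ℕ} {f : Fin r → (K ≃ₐ[ℂ] K)} (hf : ∀ i j, f i * f j = f j * f i)
    (hzero : ∀ g ∈ Subgroup.closure (Set.range f), dynDegree g y n 1 ≤ 1)
    (hP : (∀ g ∈ Subgroup.closure (Set.range f), PullLe g y n Δ) ∨ (Δ = 0 ∧ Canonical y n))
    (hgrow : ∀ C : ℕ, ∃ w : List (K ≃ₐ[ℂ] K), w ≠ [] ∧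
      (∀ g ∈ w, g ∈ Set.range f ∨ g⁻¹ ∈ Set.range f) ∧
      (C : ℝ≥0∞) * (w.length : ℝ≥0∞) ^ 4 < mixedDegree w.prod y n 1) :
    3 < n ∧ NumDimLt y n Δ (n - 2) ∧ ¬ KappaGe y n Δ (n - 2) ∧
      (KappaGe y n Δ (n - 3) → Abundant y n Δ) := by
  have hP' : ∀ g ∈ Subgroup.closure (Set.range f), PullLe g y n Δ := by
    rcases hP with h | ⟨rfl, hcan⟩
    · exact h
    · exact fun g _ => pullLe_canonical hy hn hcan g
  obtain ⟨h1, h2⟩ := Run7.h913.QG.quart_main hy hn hn0 hΔ.2 f hf hzero hP' hgrow
  refine ⟨h1, h2, ?_, fun h => ⟨n - 3, h, ?_⟩⟩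
  · rintro ⟨m, hm, ω, E, hω, h0, hind⟩
    exact kappa_lt hy hn (Nat.sub_le _ _) h2 hm hω h0 hind
  · rwa [show n - 3 + 1 = n - 2 by omega]
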